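import Pool.Agent.H16.ZW.Targets

/-!
# MV: divisibility of the geometric sums of a matrix congruent to `1`
-/

namespace Pool.Agent.H42.ZW

open Pool.Agent.H16.ZW

theorem pow_one_add_form {R : Type*} [Ring R] (a : R) (i : ℕ) :
    ∃ Z : R, (1 + a) ^ i = 1 + i • a + a * a * Z := by
  induction i with
  | zero => exact ⟨0, by simp⟩
  | succ i ih =>
    obtain ⟨Z, hZ⟩ := ih
    refine ⟨i • (1 : R) + Z + Z * a, ?_⟩
    rw [pow_succ, hZ, add_smul, one_smul]
    simp only [mul_add, add_mul, mul_one, one_mul, smul_mul_assoc, mul_smul_comm, mul_assoc]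
    abel

theorem geom_sum_mul_range {R : Type*} [Ring R] (x : R) (a b : ℕ) :
    ∑ i ∈ Finset.range (a * b), x ^ i =
      (∑ i ∈ Finset.range a, x ^ i) * ∑ j ∈ Finset.range b, (x ^ a) ^ j := by
  induction b with
  | zero => simp
  | succ b ih =>
    rw [Nat.mul_succ, Finset.sum_range_add, ih, Finset.sum_range_succ, mul_add]
    congr 1
    rw [Finset.sum_mul]
    apply Finset.sum_congr rfl
    intro i _
    rw [← pow_mul, ← pow_add, add_comm]

/-- the induction step -/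
theorem mv_step {m : ℕ} (p : ℕ) (hp : p.Prime) (h2 : p ≠ 2) (C X : Matrix (Fin m) (Fin m) ℤ)
    (hX : C - 1 = (p : ℤ) • X) (T : ℕ) (V : Matrix (Fin m) (Fin m) ℤ)
    (hV : geo C (p ^ T) = ((p : ℤ) ^ T) • V) :
    ∃ W : Matrix (Fin m) (Fin m) ℤ,
      geo C (p ^ (T + 1)) = ((p : ℤ) ^ (T + 1)) • (V + ((p : ℤ) ^ (T + 1)) • W) := by
  obtain ⟨Y, hY⟩ : ∃ Y : Matrix (Fin m) (Fin m) ℤ,
      C ^ p ^ T = 1 + ((p : ℤ) ^ (T + 1)) • Y := by
    refine ⟨X * V, ?_⟩
    have h := mul_geom_sum C (p ^ T)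
    have hV' : ∑ i ∈ Finset.range (p ^ T), C ^ i = ((p : ℤ) ^ T) • V := hV
    rw [hX, hV'] at h
    rw [← sub_eq_iff_eq_add', ← h, smul_mul_smul_comm, pow_succ']
  choose Z hZ using fun i => pow_one_add_form (((p : ℤ) ^ (T + 1)) • Y) i
  have hdvd : p ∣ ∑ i ∈ Finset.range p, i := by
    have h := Finset.sum_range_id_mul_two p
    have h' : p ∣ (∑ i ∈ Finset.range p, i) * 2 := ⟨p - 1, h⟩
    refine (Nat.Coprime.dvd_of_dvd_mul_right ?_ h')
    exact (Nat.coprime_primes hp Nat.prime_two).mpr h2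
  obtain ⟨e, he⟩ := hdvd
  have hsum : ∑ j ∈ Finset.range p, (C ^ p ^ T) ^ j = (p : ℤ) • (1 + ((p : ℤ) ^ (T + 1)) •
      ((e : ℤ) • Y + ((p : ℤ) ^ T) • (Y * Y * ∑ j ∈ Finset.range p, Z j))) := by
    rw [hY, Finset.sum_congr rfl (fun j _ => hZ j), Finset.sum_add_distrib,
      Finset.sum_add_distrib, ← Finset.sum_smul, he, ← Finset.mul_sum, Finset.sum_const,
      Finset.card_range]
    have e1 : (p • (1 : Matrix (Fin m) (Fin m) ℤ)) = (p : ℤ) • 1 := by
      rw [← natCast_zsmul]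
    have e2 : ((p * e) • (((p : ℤ) ^ (T + 1)) • Y)) =
        ((p : ℤ) * e * (p : ℤ) ^ (T + 1)) • Y := by
      rw [← natCast_zsmul, smul_smul, Nat.cast_mul]
    have e3 : ((p : ℤ) ^ (T + 1)) • Y * ((p : ℤ) ^ (T + 1)) • Y *
        ∑ j ∈ Finset.range p, Z j =
        ((p : ℤ) ^ (T + 1) * (p : ℤ) ^ (T + 1)) • (Y * Y * ∑ j ∈ Finset.range p, Z j) := by
      rw [smul_mul_smul_comm, smul_mul_assoc]
    rw [e1, e2, e3]
    module
  refine ⟨V * ((e : ℤ) • Y + ((p : ℤ) ^ T) • (Y * Y * ∑ j ∈ Finset.range p, Z j)), ?_⟩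
  have h1 : geo C (p ^ (T + 1)) = geo C (p ^ T) * ∑ j ∈ Finset.range p, (C ^ p ^ T) ^ j := by
    unfold geo
    rw [pow_succ, geom_sum_mul_range]
  rw [h1, hV, hsum, smul_mul_smul_comm, mul_add, mul_one, mul_smul_comm, ← pow_succ]

theorem smul_cancel {m : ℕ} {p : ℕ} (hp : p.Prime) (n : ℕ) {A B : Matrix (Fin m) (Fin m) ℤ}
    (h : ((p : ℤ) ^ n) • A = ((p : ℤ) ^ n) • B) : A = B := by
  ext i j
  have h' := congrFun (congrFun h i) j
  simp only [Matrix.smul_apply, smul_eq_mul] at h'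
  exact mul_left_cancel₀ (pow_ne_zero _ (by exact_mod_cast hp.ne_zero)) h'

theorem mv : T_MV := by
  intro p m C hp h2 hC
  obtain ⟨X, hX⟩ : ∃ X : Matrix (Fin m) (Fin m) ℤ, C - 1 = (p : ℤ) • X := by
    choose X hX using hC
    refine ⟨Matrix.of X, ?_⟩
    ext i j
    rw [hX i j]
    simp
  have hex : ∀ T : ℕ, ∃ V : Matrix (Fin m) (Fin m) ℤ, geo C (p ^ T) = ((p : ℤ) ^ T) • V := by
    intro T
    induction T with
    | zero => exact ⟨1, by simp [geo]⟩
    | succ T ih =>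
      obtain ⟨V, hV⟩ := ih
      obtain ⟨W, hW⟩ := mv_step p hp h2 C X hX T V hV
      exact ⟨_, hW⟩
  choose V hV using hex
  refine ⟨V, hC, ?_, hV, ?_⟩
  · have h := hV 0
    simpa [geo] using h.symm
  · intro T
    obtain ⟨W, hW⟩ := mv_step p hp h2 C X hX T (V T) (hV T)
    have h := hV (T + 1)
    rw [hW] at h
    have h' := smul_cancel hp (T + 1) h
    intro i j
    rw [← h', Matrix.sub_apply, Matrix.add_apply, add_sub_cancel_left, Matrix.smul_apply,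
      smul_eq_mul]
    exact ⟨W i j, by push_cast; rfl⟩

end Pool.Agent.H42.ZW
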