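import Pool.Agent.H16.ZW.Targets

/-!
# KAP: the logarithmic derivative of the functions `j ↦ ρ (a geo C j)`
-/

open Filter Topology

namespace Pool.Agent.H42.ZW

open Pool.Agent.H16.ZW

theorem chr_zero {m : ℕ} {K : Type} [NormedField K] {p : ℕ} (hp : PK p K)
    {ρ : (Fin m → ℤ) → K} (h : Chr p ρ) : ρ 0 = 1 := by
  have h0 : ρ 0 ≠ 0 := by
    intro h0
    have h1 := h.one 0
    rw [h0, zero_sub, norm_neg, norm_one] at h1
    have h2 : (1 : ℝ) < p := by exact_mod_cast hp.prime.one_lt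
    have h3 : ((p : ℝ))⁻¹ < 1 := inv_lt_one_of_one_lt₀ h2
    linarith
  have h1 := h.mul 0 0
  rw [add_zero] at h1
  have h2 : ρ 0 * 1 = ρ 0 * ρ 0 := by rw [mul_one]; exact h1
  exact (mul_left_cancel₀ h0 h2).symm

theorem chr_nsmul {m : ℕ} {K : Type} [NormedField K] {p : ℕ} (hp : PK p K)
    {ρ : (Fin m → ℤ) → K} (h : Chr p ρ) (a : Fin m → ℤ) (n : ℕ) : ρ (n • a) = ρ a ^ n := by
  induction n with
  | zero => rw [zero_smul, pow_zero]; exact chr_zero hp h
  | succ n ih => rw [succ_nsmul, h.mul, ih, pow_succ]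

theorem kap (hLG : T_LG) : T_KAP := by
  intro p m K _ _ _ hp C V hV ρ hρ
  obtain ⟨Lg, hL1, hL2⟩ := hLG p K hp
  have hp1 : (1 : ℝ) < p := by exact_mod_cast hp.prime.one_lt
  have hr : ((p : ℝ))⁻¹ < 1 := inv_lt_one_of_one_lt₀ hp1
  have hr0 : 0 ≤ ((p : ℝ))⁻¹ := by positivity
  let R : (Fin m → ℤ) →+ K := AddMonoidHom.mk' (fun a => Lg (ρ a)) (by
    intro a b
    rw [hρ.mul]
    exact hL2 _ _ (hρ.one a) (hρ.one b))
  have hR : ∀ a, R a = Lg (ρ a) := fun a => rfl
  have hRn : ∀ a, ‖R a‖ = ‖ρ a - 1‖ := fun a => (hL1 _ (hρ.one a)).1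
  have hR1 : ∀ a, ‖R a‖ ≤ (p : ℝ)⁻¹ := fun a => (hRn a).trans_le (hρ.one a)
  have hRp : ∀ (s : ℕ) (a : Fin m → ℤ), ‖R (((p : ℤ) ^ s) • a)‖ ≤ (p : ℝ)⁻¹ * ((p : ℝ)⁻¹) ^ s := by
    intro s a
    rw [map_zsmul, zsmul_eq_mul, norm_mul]
    push_cast
    rw [norm_pow, hp.norm_p, mul_comm]
    exact mul_le_mul_of_nonneg_right (hR1 a) (by positivity)
  have hconv : ∀ i, ∃ κ, Tendsto (fun T => R (V T i)) atTop (𝓝 κ) := by
    intro i
    apply cauchySeq_tendsto_of_complete
    apply cauchySeq_of_le_geometric (r := (p : ℝ)⁻¹) (C := (p : ℝ)⁻¹) hr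
    intro T
    choose W hW using hV.cau T i
    have h1 : V (T + 1) i - V T i = ((p : ℤ) ^ (T + 1)) • W := by
      funext j
      have := hW j
      rw [Matrix.sub_apply] at this
      rw [Pi.sub_apply, this, Pi.smul_apply, smul_eq_mul]
      push_cast
      rfl
    rw [dist_comm, dist_eq_norm, ← map_sub, h1]
    refine (hRp (T + 1) W).trans ?_
    refine mul_le_mul_of_nonneg_left ?_ hr0
    exact pow_le_pow_of_le_one hr0 hr.le (Nat.le_succ T)
  choose κ hκ using hconv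
  have hlin : ∀ (a : Fin m → ℤ) (T : ℕ),
      R (Matrix.vecMul a (V T)) = ∑ i, (a i : K) * R (V T i) := by
    intro a T
    rw [Matrix.vecMul_eq_sum, map_sum]
    apply Finset.sum_congr rfl
    intro i _
    rw [map_zsmul, zsmul_eq_mul]
  have hlim : ∀ a : Fin m → ℤ, Tendsto (fun T => R (Matrix.vecMul a (V T))) atTop
      (𝓝 (∑ i, (a i : K) * κ i)) := by
    intro a
    simp only [hlin]
    exact tendsto_finsetSum _ fun i _ => (hκ i).const_mul _
  refine ⟨κ, ?_, ?_⟩
  · intro a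
    have hpow : ∀ T, ρ (Matrix.vecMul a (geo C (p ^ T))) =
        ρ (Matrix.vecMul a (V T)) ^ p ^ T := by
      intro T
      rw [hV.geo T, Matrix.vecMul_smul, ← chr_nsmul hp hρ, ← natCast_zsmul]
      push_cast
      rfl
    have herr : Tendsto (fun T : ℕ =>
        (ρ (Matrix.vecMul a (geo C (p ^ T))) - 1) / (p : K) ^ T -
          R (Matrix.vecMul a (V T))) atTop (𝓝 0) := by
      apply squeeze_zero_norm (a := fun T : ℕ => ((p : ℝ)⁻¹) ^ T)
      · intro T
        rw [hpow T]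
        refine ((hL1 _ (hρ.one _)).2 T).trans ?_
        have h1 := hρ.one (Matrix.vecMul a (V T))
        calc ((p : ℝ)⁻¹) ^ (T + 1) * ‖ρ (Matrix.vecMul a (V T)) - 1‖
            ≤ ((p : ℝ)⁻¹) ^ T * 1 := by
              apply mul_le_mul
              · exact pow_le_pow_of_le_one hr0 hr.le (Nat.le_succ T)
              · exact h1.trans hr.le
              · positivity
              · positivity
          _ = _ := mul_one _
      · exact tendsto_pow_atTop_nhds_zero_of_lt_one hr0 hr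
    have := herr.add (hlim a)
    simpa using this
  · intro a
    simp only [← hRn]
    exact (hlim a).norm

end Pool.Agent.H42.ZW
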